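import Pool.Agent.N89.HX.Stm
import Pool.Agent.N455.BD.GL1

/-! # HX/FRB: the Frobenius elements of the Galois group -/

set_option autoImplicit false

namespace Pool.Agent.N141.HX.FRB

open Polynomial NumberField Pool.Agent.H901R3.MS Pool.Agent.N89.GS Pool.Agent.N89.BD
  Pool.Agent.N89.HX

theorem pol_map {A B : Type} [CommRing A] [CommRing B] (ψ : A →+* B) {e : ℕ}
    (f : Fin (e + 1) → A) : (pol f).map ψ = pol (fun i => ψ (f i)) := by
  unfold pol
  rw [Polynomial.map_sum]
  simp

theorem pol_eval {A : Type} [CommRing A] {e : ℕ} (f : Fin (e + 1) → A) (x : A) :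
    (pol f).eval x = ∑ i, f i * x ^ (i : ℕ) := by
  unfold pol
  rw [Polynomial.eval_finsetSum]
  simp

theorem pol_coeff {A : Type} [CommRing A] {e : ℕ} (f : Fin (e + 1) → A) (j : Fin (e + 1)) :
    (pol f).coeff j = f j := by
  unfold pol
  rw [Polynomial.finsetSum_coeff]
  simp only [coeff_C_mul, coeff_X_pow]
  rw [Finset.sum_eq_single j]
  · simp
  · intro b _ hb
    rw [if_neg (fun h => hb (Fin.ext h.symm)), mul_zero]
  · intro h
    exact absurd (Finset.mem_univ j) h

theorem pol_natDegree_le {A : Type} [CommRing A] {e : ℕ} (f : Fin (e + 1) → A) :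
    (pol f).natDegree ≤ e := by
  unfold pol
  refine natDegree_sum_le_of_forall_le _ _ fun i _ => ?_
  exact (natDegree_C_mul_X_pow_le _ _).trans (Nat.lt_succ_iff.1 i.2)

theorem pol_natDegree {A : Type} [CommRing A] {e : ℕ} (f : Fin (e + 1) → A)
    (h : f (Fin.last e) ≠ 0) : (pol f).natDegree = e := by
  refine le_antisymm (pol_natDegree_le f) ?_
  refine le_natDegree_of_ne_zero ?_
  have := pol_coeff f (Fin.last e)
  rw [Fin.val_last] at this
  rwa [this]

theorem pol_lead {A : Type} [CommRing A] {e : ℕ} (f : Fin (e + 1) → A)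
    (h : f (Fin.last e) ≠ 0) : (pol f).leadingCoeff = f (Fin.last e) := by
  unfold leadingCoeff
  rw [pol_natDegree f h]
  have := pol_coeff f (Fin.last e)
  rwa [Fin.val_last] at this

/-- an enumeration of the roots of a split polynomial -/
theorem enum {M : Type} [Field M] {p : M[X]} (hp : p.Splits) {e : ℕ} (he : p.natDegree = e) :
    ∃ ξ : Fin e → M, p = C p.leadingCoeff * ∏ i, (X - C (ξ i)) := by
  obtain ⟨l, hl⟩ := Quot.exists_rep p.roots
  have hl' : (l : Multiset M) = p.roots := hl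
  have hc : l.length = e := by
    rw [← he, hp.natDegree_eq_card_roots, ← hl', Multiset.coe_card]
  subst hc
  refine ⟨fun i => l[i.1], ?_⟩
  rw [Fin.prod_univ_fun_getElem l (fun a => X - C a)]
  conv_lhs => rw [hp.eq_prod_roots, ← hl', Multiset.map_coe, Multiset.prod_coe]

/-- roots of an integral polynomial whose leading coefficient is a unit are integral -/
theorem mem_A {M Ω : Type} [Field M] [Field Ω] (V : Place M Ω) {e : ℕ} (F : Fin (e + 1) → M)
    (hF : ∀ i, F i ∈ V.A) (hl : V.r (F (Fin.last e)) ≠ 0) (ξ : M) (h0 : (pol F).eval ξ = 0) :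
    ξ ∈ V.A := by
  by_contra hξ
  obtain ⟨h1, h2⟩ := V.inv_of_notMem ξ hξ
  have hne : ξ ≠ 0 := by
    rintro rfl
    exact hξ V.A.zero_mem
  rw [pol_eval] at h0
  have h3 : ∑ i : Fin (e + 1), F i * ξ⁻¹ ^ (e - (i : ℕ)) = 0 := by
    have h4 : (∑ i : Fin (e + 1), F i * ξ ^ (i : ℕ)) * ξ⁻¹ ^ e = 0 := by rw [h0, zero_mul]
    rw [← h4, Finset.sum_mul]
    refine Finset.sum_congr rfl fun i _ => ?_
    have h5 : ξ⁻¹ ^ e = ξ⁻¹ ^ (i : ℕ) * ξ⁻¹ ^ (e - (i : ℕ)) := by
      rw [← pow_add, Nat.add_sub_cancel' (Nat.lt_succ_iff.1 i.2)]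
    rw [h5, mul_assoc, ← mul_assoc (ξ ^ (i : ℕ)), ← mul_pow, mul_inv_cancel₀ hne, one_pow, one_mul]
  have h6 : ∑ i : Fin (e + 1), (⟨F i, hF i⟩ : V.A) * (⟨ξ⁻¹, h1⟩ : V.A) ^ (e - (i : ℕ)) = 0 := by
    apply Subtype.ext
    push_cast
    exact h3
  have h7 := congrArg V.ρ h6
  rw [map_sum, map_zero, Finset.sum_eq_single (Fin.last e)] at h7
  · rw [map_mul, Fin.val_last, Nat.sub_self, pow_zero, map_one, mul_one] at h7
    exact hl ((V.r_of (hF _)).trans h7)
  · intro i _ hi
    have hi' : (i : ℕ) < e := by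
      have h8 : (i : ℕ) ≠ e := fun h => hi (Fin.ext h)
      have := i.2
      omega
    rw [map_mul, map_pow, h2, zero_pow (by omega), mul_zero]
  · intro h
    exact absurd (Finset.mem_univ _) h

/-- reduction of a factorisation -/
theorem red_fact {M Ω : Type} [Field M] [Field Ω] (V : Place M Ω) {e : ℕ} (F : Fin (e + 1) → M)
    (hF : ∀ i, F i ∈ V.A) (ξ : Fin e → M) (hξ : ∀ i, ξ i ∈ V.A)
    (h : pol F = C (F (Fin.last e)) * ∏ i, (X - C (ξ i))) :
    pol (fun i => V.r (F i)) = C (V.r (F (Fin.last e))) * ∏ i, (X - C (V.r (ξ i))) := by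
  have hinj : Function.Injective (Polynomial.map V.A.subtype) :=
    Polynomial.map_injective _ Subtype.val_injective
  have h1 : pol (fun i => (⟨F i, hF i⟩ : V.A)) =
      C (⟨F (Fin.last e), hF _⟩ : V.A) * ∏ i, (X - C (⟨ξ i, hξ i⟩ : V.A)) := by
    apply hinj
    rw [pol_map, Polynomial.map_mul, Polynomial.map_prod, Polynomial.map_C]
    simp only [Polynomial.map_sub, Polynomial.map_X, Polynomial.map_C]
    exact h
  have h2 := congrArg (Polynomial.map V.ρ) h1
  rw [pol_map, Polynomial.map_mul, Polynomial.map_prod, Polynomial.map_C] at h2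
  simp only [Polynomial.map_sub, Polynomial.map_X, Polynomial.map_C] at h2
  simp_rw [V.r_of (hF _), V.r_of (hξ _)]
  exact h2

theorem main : S_FRB := by
  intro K _ _ k _ _ w φ hφ hw Ω _ _ _ e f g σ hfg hT
  obtain ⟨x, ⟨hg0, hx, hgx⟩, hσ⟩ := hT
  have hf0 : f (Fin.last e) ≠ 0 := by
    intro h
    apply hg0
    rw [← (hfg (Fin.last e)).2, h, w.r_zero]
  let L := AlgebraicClosure K
  have hsplL : ((pol f).map (algebraMap K L)).Splits := IsAlgClosed.splits _
  let M : IntermediateField K L := IntermediateField.adjoin K ((pol f).rootSet L)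
  have hsf : (pol f).IsSplittingField K M := IntermediateField.adjoin_rootSet_isSplittingField hsplL
  have hnor : Normal K M := Normal.of_isSplittingField (pol f)
  have hfd : FiniteDimensional K M := Polynomial.IsSplittingField.finiteDimensional M (pol f)
  have hgal : IsGalois K M := ⟨⟩
  have hnf : NumberField M := NumberField.of_module_finite K M
  obtain ⟨V, s, -, hV, hs⟩ := Pool.Agent.N455.BD.GL1.main K M k w φ hφ hw Ω
  -- the roots in `M`
  let F : Fin (e + 1) → M := fun i => algebraMap K M (f i)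
  have hFl : F (Fin.last e) ≠ 0 := (_root_.map_ne_zero _).2 hf0
  have hF : ∀ i, F i ∈ V.A := fun i => (hV (f i)).1.2 (hfg i).1
  have hFr : ∀ i, V.r (F i) = algebraMap k Ω (g i) := fun i => by
    rw [← (hfg i).2]
    exact (hV (f i)).2
  have hlr : V.r (F (Fin.last e)) ≠ 0 := by
    rw [hFr]
    exact (_root_.map_ne_zero _).2 hg0
  have hspl : (pol F).Splits := by
    have h1 := hsf.splits
    rw [pol_map] at h1
    exact h1
  obtain ⟨ξ, hξ⟩ := enum hspl (pol_natDegree F hFl)
  rw [pol_lead F hFl] at hξ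
  have hroot : ∀ i, (pol F).eval (ξ i) = 0 := by
    intro i
    rw [hξ, eval_mul, eval_prod, Finset.prod_eq_zero (Finset.mem_univ i) (by simp), mul_zero]
  have hξA : ∀ i, ξ i ∈ V.A := fun i => mem_A V F hF hlr (ξ i) (hroot i)
  have hred := red_fact V F hF ξ hξA hξ
  have hred' : ∏ i, (X - C (V.r (ξ i))) = ∏ i, (X - C (x i)) := by
    have h1 : C (V.r (F (Fin.last e))) * ∏ i, (X - C (V.r (ξ i))) =
        C (V.r (F (Fin.last e))) * ∏ i, (X - C (x i)) := by
      rw [← hred, hFr, ← hgx, pol_map]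
      congr 1
      funext i
      exact hFr i
    exact mul_left_cancel₀ (C_ne_zero.2 hlr) h1
  -- renumbering
  have hex : ∀ i, ∃ j, V.r (ξ j) = x i := by
    intro i
    have h1 := congrArg (Polynomial.eval (x i)) hred'
    rw [eval_prod, eval_prod, Finset.prod_eq_zero (Finset.mem_univ i) (f := fun j =>
      eval (x i) (X - C (x j))) (by simp)] at h1
    obtain ⟨j, _, hj⟩ := Finset.prod_eq_zero_iff.1 h1
    refine ⟨j, ?_⟩
    rw [eval_sub, eval_X, eval_C, sub_eq_zero] at hj
    exact hj.symm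
  choose π hπ using hex
  have hπi : Function.Injective π := fun i j h => hx (by rw [← hπ i, ← hπ j, h])
  let πe : Equiv.Perm (Fin e) := Equiv.ofBijective π (Finite.injective_iff_bijective.1 hπi)
  let Y : Fin e → M := fun i => ξ (π i)
  have hY : ∀ i, V.r (Y i) = x i := hπ
  have hYp : pol F = C (F (Fin.last e)) * ∏ i, (X - C (Y i)) := by
    rw [hξ]
    congr 1
    exact (Equiv.prod_comp πe fun i => X - C (ξ i)).symm
  have hYi : Function.Injective Y := fun i j h => hx (by rw [← hY i, ← hY j, h])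
  -- the action of `s`
  have hsY : ∀ i, s (Y i) = Y (σ i) := by
    intro i
    have h1 : (pol F).eval (s (Y i)) = 0 := by
      have h2 := congrArg s (hroot (π i))
      rw [map_zero, pol_eval, map_sum] at h2
      rw [pol_eval, ← h2]
      refine Finset.sum_congr rfl fun j _ => ?_
      rw [map_mul, map_pow]
      congr 1
      exact (s.commutes (f j)).symm
    rw [hYp, eval_mul, eval_C, eval_prod, mul_eq_zero] at h1
    obtain ⟨j, _, hj⟩ := Finset.prod_eq_zero_iff.1 (h1.resolve_left hFl)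
    rw [eval_sub, eval_X, eval_C, sub_eq_zero] at hj
    have h3 : V.r (s (Y i)) = x (σ i) := by
      rw [(hs (Y i)).2 (hξA _), hY, hσ]
    rw [hj, hY] at h3
    rw [hj, hx h3]
  refine ⟨fun i => algebraMap M L (Y i), s.liftNormal L, ⟨hf0, ?_, ?_⟩, ?_⟩
  · exact fun i j h => hYi ((algebraMap M L).injective h)
  · have h1 : (pol f).map (algebraMap K L) = (pol F).map (algebraMap M L) := by
      rw [pol_map, pol_map]
      rfl
    rw [h1, hYp, Polynomial.map_mul, Polynomial.map_prod, Polynomial.map_C]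
    simp only [Polynomial.map_sub, Polynomial.map_X, Polynomial.map_C]
    rfl
  · intro i
    show s.liftNormal L (algebraMap M L (Y i)) = algebraMap M L (Y (σ i))
    rw [AlgEquiv.liftNormal_commutes, hsY]

end Pool.Agent.N141.HX.FRB
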